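import Pool.Agent.Run7.h373.CK.Stm
import Pool.Agent.W289.CG.Core3
import Pool.Agent.W930.CG.Cls
import Pool.Agent.W240.CG.Grp
import Pool.Agent.W240.CG.Real
import Pool.Agent.W125.CG.Uni
import Pool.Agent.W64.CG.Val
import Pool.Agent.W349.CG.Mu
import Pool.Agent.W505.CG.St

/-!
# The fields
-/

set_option autoImplicit false

namespace Pool.Agent.Run7.h373.CK

open Polynomial NumberField nonZeroDivisors Pool.Agent.W289.CG

section

variable {n M : ℕ} {D : Dt n M} {m : ℕ} {s t L : ℤ} {K : Type} [Field K] [NumberField K] {θ : K}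

theorem ne_pt (hF : Fl D m s t L K θ) (hs : s ≠ 0) (ht : t ≠ 0) (i : Fin (M + 1)) :
    θ - (D.pt i : K) ≠ 0 := by
  intro h
  have h1 : θ = (D.pt i : K) := sub_eq_zero.1 h
  have h2 : aeval θ D.A = ((D.A.eval (D.pt i) : ℤ) : K) := by
    rw [h1, show ((D.pt i : ℤ) : K) = algebraMap ℤ K (D.pt i) by simp, aeval_algebraMap_apply]
    simp
  have hθ := hF.hθ
  rw [h2] at hθ
  rcases D.hval i with h3 | h3
  · rw [h3, Int.cast_zero, mul_zero, zero_add] at hθ
    exact pow_ne_zero m (Int.cast_ne_zero.2 hs) hθ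
  · rw [h3] at hθ
    have h4 : ((L * D.c + s ^ m : ℤ) : K) = 0 := by push_cast; exact hθ
    rw [hF.hL] at h4
    have h5 : ((t ^ m : ℤ) : K) = 0 := by
      rw [← h4]; congr 1; ring
    exact pow_ne_zero m ht (Int.cast_injective (α := K) (by rw [h5, Int.cast_zero]))

theorem ne_Q (hF : Fl D m s t L K θ) (hs : s ≠ 0) : aeval θ D.Q ≠ 0 := by
  intro h
  have hθ := hF.hθ
  rw [D.hfac, map_mul, h, zero_mul, mul_zero, zero_add] at hθ
  exact pow_ne_zero m (Int.cast_ne_zero.2 hs) hθ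

end

theorem dvd_bad {n M : ℕ} (D : Dt n M) (i : Fin (M + 1)) : (derivative D.A).eval (D.pt i) ∣ D.bad :=
  Finset.dvd_prod_of_mem _ (Finset.mem_univ i)

theorem good_arith {n M : ℕ} {D : Dt n M} {m N q₀ q₁ : ℕ} {s t : ℤ} (hG : Gd D m N q₀ q₁ s t)
    (hm : 2 ≤ m) (hs : 0 < s) (hst : s < t) (hcop : IsCoprime s t) :
    ∃ L : ℤ, 0 < L ∧ L * D.c = t ^ m - s ^ m ∧ IsCoprime L (s ^ m) ∧ (q₀ : ℤ) ∣ L ∧
      ¬ (q₀ : ℤ) ^ 2 ∣ L ∧ ¬ (q₀ : ℤ) ∣ s ^ m ∧ IsCoprime s D.bad ∧ IsCoprime t D.bad := by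
  have hc : D.c ∣ t ^ m - s ^ m := by
    refine Dvd.dvd.trans ?_ (sub_dvd_pow_sub_pow t s m)
    have := hG.htc.sub hG.hsc
    have h : t - s = t - 1 - (s - 1) := by ring
    rw [h]; exact this
  obtain ⟨L, hL⟩ := hc
  have hpow : s ^ m < t ^ m := pow_lt_pow_left₀ hst hs.le (by omega)
  have hLpos : 0 < L := by
    have h1 : 0 < D.c * L := by rw [← hL]; linarith
    exact pos_of_mul_pos_right h1 D.hc.le |> fun h => h
  have hcop2 : IsCoprime (t ^ m - s ^ m) (s ^ m) := by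
    have h1 : IsCoprime (t ^ m) (s ^ m) := (hcop.symm).pow
    have h2 : t ^ m - s ^ m = t ^ m + s ^ m * (-1) := by ring
    rw [h2]
    exact IsCoprime.add_mul_left_left h1 _
  have hex := exact_power hG.hq₀ hG.hm hG.hs₀ hG.ht₀
  have hp : Prime (q₀ : ℤ) := Nat.prime_iff_prime_int.1 hG.hq₀
  have hone : ∀ x d : ℤ, d ∣ x - 1 → IsCoprime x d := by
    intro x d ⟨w, hw⟩
    exact ⟨1, -w, by linear_combination hw⟩
  refine ⟨L, hLpos, by rw [hL]; ring, ?_, ?_, ?_, ?_, hone _ _ hG.hsb, hone _ _ hG.htb⟩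
  · rw [hL] at hcop2
    exact IsCoprime.of_mul_left_right hcop2
  · have h1 := hex.1
    rw [hL] at h1
    exact (hp.dvd_or_dvd h1).resolve_left hG.hc
  · intro h
    exact hex.2 (by rw [hL]; exact Dvd.dvd.mul_left h _)
  · intro h
    have h1 := hp.dvd_of_dvd_pow h
    have h2 : (q₀ : ℤ) ∣ 1 := by
      have := h1.sub hG.hs₀
      simpa using this
    exact hp.not_isUnit (isUnit_of_dvd_one h2)

theorem aeval_F (A : ℤ[X]) (L S : ℤ) {R : Type} [CommRing R] [Algebra ℚ R] (x : R) :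
    aeval x ((C L * A + C S).map (Int.castRingHom ℚ)) = (L : R) * aeval x A + (S : R) := by
  have h : (Int.castRingHom ℚ) = algebraMap ℤ ℚ := rfl
  rw [h, aeval_map_algebraMap]
  simp

theorem deg_F {A : ℤ[X]} (L S : ℤ) (hL : L ≠ 0) :
    ((C L * A + C S).map (Int.castRingHom ℚ)).natDegree = A.natDegree := by
  rw [natDegree_map_eq_of_injective (RingHom.injective_int _), natDegree_add_C,
    natDegree_C_mul hL]

theorem no_zeta {n M : ℕ} {D : Dt n M} {m : ℕ} {s t L : ℤ} {K : Type} [Field K] [NumberField K]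
    {θ : K} (hE : S_EMB) (hMu : TaskMu) (hK : Module.finrank ℚ K = n)
    (hn : 1 ≤ n) (hL : L ≠ 0) (hF : Fl D m s t L K θ) {q d : ℕ} (hq : q.Prime) {x : ℤ}
    (hx : Ts D m q s t x) (hqd : ¬ q ∣ d) (hd : ¬ d ∣ q - 1) : ¬ ∃ ζ : K, IsPrimitiveRoot ζ d := by
  rintro ⟨ζ, hζ⟩
  have : Fact q.Prime := ⟨hq⟩
  obtain ⟨φ, z, hφ, hz⟩ := hE n M D m s t L K θ q x hK hn hL hF hx
  exact hd (hMu q d hqd ⟨φ ζ, hζ.map_of_injective φ.injective⟩)

theorem t_CORE (hLoc : S_LOC) (hEmb : S_EMB) (hGood : S_GOOD) (hInd : S_IND) (hIrr : S_IRR)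
    (hDisc : S_DISC) : S_CORE := by
  intro n M D m N hn hm x y hx hxy
  have hCls : TaskCls := Pool.Agent.W930.CG.cls Pool.Agent.W240.CG.grp Pool.Agent.W125.CG.uni
  have hdeg := D.hn
  obtain ⟨q₀, q₁, Z, s₀, t₀, hZ, hcop, hgood⟩ := hGood n M D m N (by omega) hm
  obtain ⟨s, t, hs, ht, hs0, hst, hxs, hys⟩ := Pool.Agent.W505.CG.st Z s₀ t₀ x y hZ hcop hx hxy 0
  have hG := hgood s t hs ht
  have hsR : (0 : ℝ) < s := by exact_mod_cast hs0
  have hslt : s < t := by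
    have h1 : (s : ℝ) < t := by nlinarith
    exact_mod_cast h1
  obtain ⟨L, hL0, hLc, hcopL, hqL, hqL2, hqs, hsb, htb⟩ := good_arith hG hm hs0 hslt hst
  have hirr := hIrr D.A L (s ^ m) q₀ D.hA (by omega) hG.hq₀ hqL hqL2 hqs hcopL
  obtain ⟨K, hK1, hK2, θ, hfr, hθ, hgen⟩ := exists_field _ hirr
  rw [deg_F L _ hL0.ne', hdeg] at hfr
  have hθ' := hθ
  rw [aeval_F] at hθ'
  have hF : Fl D m s t L K θ := ⟨hLc, by push_cast at hθ'; exact hθ', hgen⟩
  have htn : t ≠ 0 := (hs0.trans hslt).ne'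
  have hpt := ne_pt hF hs0.ne' htn
  have hQne := ne_Q hF hs0.ne'
  refine ⟨s, t, K, hK1, hK2, hs0, hxs, hys, hfr, ?_, ?_, ?_⟩
  · have h1 := hDisc K D.A L (s ^ m) q₀ θ D.hA (by omega) (by omega) hG.hq₀ hqL hqL2 hqs hθ' hgen
    have h2 : (q₀ : ℤ) ≤ |discr K| := Int.le_of_dvd (abs_pos.2 (discr_ne_zero K))
      ((dvd_abs _ _).2 h1)
    have h3 : (N : ℤ) < q₀ := by exact_mod_cast hG.hN
    linarith
  · rw [Pool.Agent.W240.CG.pl K _ θ hirr hθ hgen]
    congr 1
    ext X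
    simp only [Set.mem_ofPred_eq]
    rw [aeval_F]
    have hL0' : (L : ℝ) ≠ 0 := by exact_mod_cast hL0.ne'
    have hc0 : (D.c : ℝ) ≠ 0 := by exact_mod_cast D.hc.ne'
    have h1 : (t : ℝ) ^ m - (s : ℝ) ^ m = L * D.c := by
      have : ((L * D.c : ℤ) : ℝ) = ((t ^ m - s ^ m : ℤ) : ℝ) := by rw [hLc]
      push_cast at this
      exact this.symm
    rw [h1]
    push_cast
    constructor
    · intro h
      field_simp
      linear_combination h
    · intro h
      rw [h]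
      field_simp
      ring
  · intro R hR
    obtain ⟨g, hg0, hg1⟩ : ∃ g : Fin (M + 1) → Kˣ,
        (g 0 : K) = aeval θ D.Q / (θ - (D.pt 0 : K)) ^ D.Q.natDegree ∧
        ∀ i : Fin M, (g i.succ : K) = (θ - (D.pt i.succ : K)) / (θ - (D.pt 0 : K)) := by
      refine ⟨Fin.cons (Units.mk0 _ (div_ne_zero hQne (pow_ne_zero D.Q.natDegree (hpt 0))))
        (fun i => Units.mk0 _ (div_ne_zero (hpt i.succ) (hpt 0))), ?_, ?_⟩
      · simp
      · intro i
        simp
    have hloc := hLoc n M D m s t L K θ (by omega) hL0.ne' hs0.ne' htn hF hst hsb htb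
    refine hCls K (M + 1) m R hm (by omega) g ?_ ?_ ?_
    · intro i
      refine Pool.Agent.W64.CG.val K m _ (by omega) fun v => ?_
      refine Fin.cases ?_ (fun i => ?_) i
      · rw [hg0]
        exact (hloc v).2 0
      · rw [hg1]
        exact (hloc v).1 i.succ 0
    · intro ℓ hℓ hℓm
      exact hInd n M D m s t L K θ hfr (by omega) hL0.ne' hF hpt hQne g hg0 hg1 ℓ hℓ
        (fun h h₀ h1 h2 h3 => hG.tests ℓ hℓ hℓm h h₀ h1 h2 h3)
    · intro ℓ hℓ hℓm
      obtain ⟨i₁, hi₁⟩ := D.h1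
      have hx1 : Ts D m q₁ s t (D.pt i₁) := by
        have hp : Prime (q₁ : ℤ) := Nat.prime_iff_prime_int.1 hG.hq₁
        refine ⟨hG.hq₁, hG.hc₁, ?_, ?_, ?_⟩
        · rw [hi₁, sub_self, mul_zero, sub_zero]
          exact Dvd.dvd.mul_right (dvd_pow hG.ht₁ (by omega)) _
        · intro h
          have h1 : (q₁ : ℤ) ∣ s ^ m := by
            have := (dvd_pow hG.ht₁ (show m ≠ 0 by omega)).sub h
            simpa using this
          have h2 := hp.dvd_of_dvd_pow h1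
          have h3 : (q₁ : ℤ) ∣ 1 := by
            have := h2.sub hG.hs₁
            simpa using this
          exact hp.not_isUnit (isUnit_of_dvd_one h3)
        · intro h
          exact hG.hbad (h.trans (dvd_bad D i₁))
      have hle : ℓ ≤ m := Nat.le_of_dvd (by omega) hℓm
      have hq1 : q₁ - 1 + 2 = q₁ + 1 := by have := hG.hq4; omega
      refine ⟨fun hℓ2 => ?_, fun hℓ2 => ?_⟩
      · refine no_zeta hEmb Pool.Agent.W349.CG.mu hfr (by omega) hL0.ne' hF hG.hq₁ hx1 ?_ ?_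
        · intro h
          have := Nat.le_of_dvd hℓ.pos h
          have := hG.hqm'
          omega
        · intro h
          have h1 : ℓ ∣ q₁ + 1 := (hℓm.trans (Dvd.intro_left _ rfl)).trans hG.hqm
          rw [← hq1] at h1
          have h2 : ℓ ∣ 2 := (Nat.dvd_add_right h).1 h1
          exact hℓ2 ((Nat.prime_dvd_prime_iff_eq hℓ Nat.prime_two).1 h2)
      · refine no_zeta hEmb Pool.Agent.W349.CG.mu hfr (by omega) hL0.ne' hF hG.hq₁ hx1 ?_ ?_
        · intro h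
          have := Nat.le_of_dvd (by norm_num) h
          have := hG.hq4
          omega
        · intro h
          have h1 : 4 ∣ q₁ + 1 := (Dvd.intro _ rfl).trans hG.hqm
          rw [← hq1] at h1
          have h2 : 4 ∣ 2 := (Nat.dvd_add_right h).1 h1
          norm_num at h2

end Pool.Agent.Run7.h373.CK
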