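import Mathlib

/-!
# Blocks of six points: the fibres of `(x ^ 3 - 7 x) ^ 2`
-/

set_option autoImplicit false

namespace Pool.Agent.Run7.h373.CK

/-- the six points of a point `(a, b)` of the conic `a ^ 2 + a b + b ^ 2 = 7` -/
def six {R : Type} [CommRing R] (a b : R) : Fin 6 → R := ![a, -a, b, -b, a + b, -(a + b)]

theorem six_prod {R : Type} [CommRing R] (a b x : R) (h : a ^ 2 + a * b + b ^ 2 = 7) :
    ∏ j, (x - six a b j) = (x ^ 3 - 7 * x) ^ 2 - (a * b * (a + b)) ^ 2 := by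
  have e1 : (x - a) * (x - b) * (x - -(a + b)) = (x ^ 3 - 7 * x) + a * b * (a + b) := by
    linear_combination (-x) * h
  have e2 : (x - -a) * (x - -b) * (x - (a + b)) = (x ^ 3 - 7 * x) - a * b * (a + b) := by
    linear_combination (-x) * h
  rw [Fin.prod_univ_six]
  simp only [six, Matrix.cons_val_zero, Matrix.cons_val_one, Matrix.cons_val]
  calc _ = ((x - a) * (x - b) * (x - -(a + b))) * ((x - -a) * (x - -b) * (x - (a + b))) := by ring
    _ = _ := by rw [e1, e2]; ring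

section

variable {F : Type} [Field F] [LinearOrder F] [IsStrictOrderedRing F]

theorem two_lt {a b : F} (h : a ^ 2 + a * b + b ^ 2 = 7) (ha : 0 < a) (hb : 0 < b) (hb1 : b < 1) :
    2 < a := by
  by_contra hcon
  push Not at hcon
  nlinarith [mul_pos ha hb, mul_nonneg (sub_nonneg.2 hcon) ha.le, mul_nonneg (sub_nonneg.2 hcon) hb.le]

theorem six_inj {a b : F} (h : a ^ 2 + a * b + b ^ 2 = 7) (ha : 0 < a) (hb : 0 < b) (hb1 : b < 1) :
    Function.Injective (six a b) := by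
  have h2 := two_lt h ha hb hb1
  intro i j hij
  fin_cases i <;> fin_cases j <;> simp [six] at hij ⊢ <;> linarith

theorem six_mul {a b : F} (h : a ^ 2 + a * b + b ^ 2 = 7) : a * b * (a + b) = b * (7 - b ^ 2) := by
  linear_combination b * h

/-- the value at the six points -/
theorem six_val {a b : F} (h : a ^ 2 + a * b + b ^ 2 = 7) (j : Fin 6) :
    ((six a b j) ^ 3 - 7 * six a b j) ^ 2 = (a * b * (a + b)) ^ 2 := by
  have h1 := six_prod a b (six a b j) h
  rw [Finset.prod_eq_zero (Finset.mem_univ j) (sub_self _)] at h1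
  linear_combination -h1

theorem six_der {a b : F} (h : a ^ 2 + a * b + b ^ 2 = 7) (ha : 0 < a) (hb : 0 < b) (hb1 : b < 1)
    (j : Fin 6) : 2 * ((six a b j) ^ 3 - 7 * six a b j) * (3 * (six a b j) ^ 2 - 7) ≠ 0 := by
  have h2 := two_lt h ha hb hb1
  have h3 := six_val h j
  have h4 : 0 < a * b * (a + b) := by positivity
  refine mul_ne_zero (mul_ne_zero two_ne_zero ?_) ?_
  · intro h0
    rw [h0] at h3
    have : 0 < (a * b * (a + b)) ^ 2 := by positivity
    rw [← h3] at this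
    simp at this
  · have hc : (six a b j) ^ 2 = a ^ 2 ∨ (six a b j) ^ 2 = b ^ 2 ∨ (six a b j) ^ 2 = (a + b) ^ 2 := by
      have h5 : (-b + -a) ^ 2 = (a + b) ^ 2 := by ring
      fin_cases j <;> simp [six, h5]
    rcases hc with hc | hc | hc <;> rw [hc] <;> intro h0 <;> nlinarith

end

/-- the real blocks -/
theorem ex_real (r : ℝ) (h0 : 0 < r) (h1 : r < 36) : ∃ a b : ℝ, 0 < a ∧ 0 < b ∧ b < 1 ∧
    a ^ 2 + a * b + b ^ 2 = 7 ∧ (a * b * (a + b)) ^ 2 = r := by
  have hs0 : 0 < Real.sqrt r := Real.sqrt_pos.2 h0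
  have hs1 : Real.sqrt r < 6 := by
    rw [Real.sqrt_lt' (by norm_num)]
    linarith
  have hs2 : Real.sqrt r ^ 2 = r := Real.sq_sqrt h0.le
  have hcont : Continuous fun b : ℝ => b * (7 - b ^ 2) := by fun_prop
  obtain ⟨b, ⟨hb1, hb2⟩, hb3⟩ := intermediate_value_Icc (zero_le_one (α := ℝ)) hcont.continuousOn
    (show Real.sqrt r ∈ Set.Icc ((0 : ℝ) * (7 - 0 ^ 2)) (1 * (7 - 1 ^ 2)) from
      ⟨by simpa using hs0.le, by norm_num; linarith⟩)
  simp only at hb3
  have hb0 : 0 < b := lt_of_le_of_ne hb1 fun h => by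
    rw [← h] at hb3
    simp at hb3
    linarith
  have hbl : b < 1 := lt_of_le_of_ne hb2 fun h => by
    rw [h] at hb3
    norm_num at hb3
    linarith
  have h28 : 0 < 28 - 3 * b ^ 2 := by nlinarith
  have hq : Real.sqrt (28 - 3 * b ^ 2) ^ 2 = 28 - 3 * b ^ 2 := Real.sq_sqrt h28.le
  have hql : b < Real.sqrt (28 - 3 * b ^ 2) := by
    rw [Real.lt_sqrt hb0.le]
    nlinarith
  have hcon : ((-b + Real.sqrt (28 - 3 * b ^ 2)) / 2) ^ 2 + ((-b + Real.sqrt (28 - 3 * b ^ 2)) / 2) * b + b ^ 2 = 7 := by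
    linear_combination (1 / 4) * hq
  refine ⟨(-b + Real.sqrt (28 - 3 * b ^ 2)) / 2, b, by linarith, hb0, hbl, hcon, ?_⟩
  rw [six_mul hcon, hb3, hs2]

end Pool.Agent.Run7.h373.CK
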