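import Pool.Agent.Run7.h373.CK.Blk

/-!
# The selection of the blocks
-/

set_option autoImplicit false

namespace Pool.Agent.Run7.h373.CK

/-- the value of the conic point `(a, b)` -/
def lam {R : Type} [CommRing R] (a b : R) : R := (a * b * (a + b)) ^ 2

/-- `f` conic points `inl i` (the zero blocks), two conic points `inr 0`, `inr 1` (the blocks of level `c`), and `ρ` -/
structure Sel (f : ℕ) where
  a : Fin f ⊕ Fin 2 → ℚ
  b : Fin f ⊕ Fin 2 → ℚ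
  ρ : ℚ
  ha : ∀ i, 0 < a i
  hb : ∀ i, 0 < b i
  hb1 : ∀ i, b i < 1
  hab : ∀ i, a i ^ 2 + a i * b i + b i ^ 2 = 7
  hL : Function.Injective (fun i => lam (a i) (b i))
  hρ0 : 0 < ρ
  hρL : ∀ i : Fin f, ρ ≠ lam (a (Sum.inl i)) (b (Sum.inl i))
  hρ : ρ < lam (a (Sum.inr 0)) (b (Sum.inr 0))
  hμ : lam (a (Sum.inr 0)) (b (Sum.inr 0)) < lam (a (Sum.inr 1)) (b (Sum.inr 1))
  hgap : ∀ i : Fin f, lam (a (Sum.inl i)) (b (Sum.inl i)) < lam (a (Sum.inr 0)) (b (Sum.inr 0)) ∨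
    lam (a (Sum.inr 1)) (b (Sum.inr 1)) < lam (a (Sum.inl i)) (b (Sum.inl i))
  htop : ∃ i : Fin f, lam (a (Sum.inr 1)) (b (Sum.inr 1)) < lam (a (Sum.inl i)) (b (Sum.inl i))
  hval : (lam (a (Sum.inr 0)) (b (Sum.inr 0)) - ρ) *
      ∏ i : Fin f, (lam (a (Sum.inr 0)) (b (Sum.inr 0)) - lam (a (Sum.inl i)) (b (Sum.inl i))) =
    (lam (a (Sum.inr 1)) (b (Sum.inr 1)) - ρ) *
      ∏ i : Fin f, (lam (a (Sum.inr 1)) (b (Sum.inr 1)) - lam (a (Sum.inl i)) (b (Sum.inl i)))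
  hpos : 0 < (lam (a (Sum.inr 0)) (b (Sum.inr 0)) - ρ) *
      ∏ i : Fin f, (lam (a (Sum.inr 0)) (b (Sum.inr 0)) - lam (a (Sum.inl i)) (b (Sum.inl i)))

/-- SEL: the selection.  Points `(a, b)` with `a ^ 2 + a b + b ^ 2 = 7`, `0 < b < 1`, `a > 0` have
`a b (a + b) = b (7 - b ^ 2)`, which increases with `b`, so `lam` does (`0 < lam < 36`).
For rational `u` with `0 ≤ u < 1 / 5` take `b = (1 - 4 u - 3 u ^ 2) / (1 + u + u ^ 2)`, `a = (2 + 6 u + u ^ 2) / (1 + u + u ^ 2)`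
(`b` decreases with `u`).  The tops: `u = 1 / (9 + i)` for `i = 0, ..., E - 1`, `E` even (`E = f` for even `f`, `E = f - 1` for odd `f`);
`i = 0` is `(a, b) = (31 / 13, 6 / 13)`.  For odd `f` one further zero block `(18 / 7, 1 / 7)`.  `inr 0` is
`(109 / 43, 9 / 43)`, `μ₀ = lam`.  With `P T = ∏ (T - lam i)` we have `P μ₀ > 0`, `P` is positive on `[μ₀, lam_0)` and `P (lam_0) = 0`.
`inr 1`: `u` rational, slightly larger than `1 / 9`, so `μ₁ < lam_0` is close to `lam_0` and `P μ₁ > 0` is as small as we like;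
`ρ = (μ₀ P μ₀ - μ₁ P μ₁) / (P μ₀ - P μ₁)`, so `ρ - μ₀ = - (μ₁ - μ₀) P μ₁ / (P μ₀ - P μ₁)` is negative and close to `0`,
so `ρ` is larger than `0` and than `lam (18 / 7) (1 / 7)`. -/
def S_SEL : Prop := ∀ f : ℕ, 2 ≤ f → Nonempty (Sel f)

end Pool.Agent.Run7.h373.CK
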