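import Pool.Agent.Run7.h373.CK.Stm
import Pool.Agent.Run7.h373.CK.Sel
import Pool.Agent.R713.AS.Gap

/-!
# The data
-/

set_option autoImplicit false

namespace Pool.Agent.Run7.h373.CK

open Polynomial Pool.Agent.R713.AS

theorem six_cast {R S : Type} [CommRing R] [CommRing S] (φ : R →+* S) (a b : R) (j : Fin 6) :
    φ (six a b j) = six (φ a) (φ b) j := by
  fin_cases j <;> simp [six]

theorem six_scale {R : Type} [CommRing R] (d a b : R) (j : Fin 6) :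
    six (d * a) (d * b) j = d * six a b j := by
  fin_cases j <;> simp [six] <;> ring

theorem ex_mul (q : ℚ) (D : ℕ) (h : q.den ∣ D) : ∃ z : ℤ, (z : ℚ) = D * q := by
  obtain ⟨k, rfl⟩ := h
  refine ⟨k * q.num, ?_⟩
  have h1 : (q.den : ℚ) * q = q.num := by
    rw [mul_comm]; exact Rat.mul_den_eq_num q
  push_cast
  rw [mul_assoc, mul_comm (q.den : ℚ), mul_assoc, mul_comm q, h1]

theorem ex_int {f : ℕ} (S : Sel f) : ∃ (d : ℤ) (za zb : Fin f ⊕ Fin 2 → ℤ) (r : ℤ), 0 < d ∧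
    (∀ i, (za i : ℚ) = d * S.a i) ∧ (∀ i, (zb i : ℚ) = d * S.b i) ∧ (r : ℚ) = d ^ 6 * S.ρ := by
  classical
  set D : ℕ := S.ρ.den * (∏ i, (S.a i).den) * ∏ i, (S.b i).den with hD
  have hD0 : 0 < D := by
    rw [hD]
    have h1 : 0 < ∏ i, (S.a i).den := Finset.prod_pos fun i _ => (S.a i).den_pos
    have h2 : 0 < ∏ i, (S.b i).den := Finset.prod_pos fun i _ => (S.b i).den_pos
    have h3 := S.ρ.den_pos
    positivity
  have h1 : ∀ i, (S.a i).den ∣ D := fun i =>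
    ((Finset.dvd_prod_of_mem (fun i => (S.a i).den) (Finset.mem_univ i)).trans
      (Dvd.intro_left _ rfl)).trans (Dvd.intro _ rfl)
  have h2 : ∀ i, (S.b i).den ∣ D := fun i =>
    (Finset.dvd_prod_of_mem (fun i => (S.b i).den) (Finset.mem_univ i)).trans (Dvd.intro_left _ rfl)
  have h3 : S.ρ.den ∣ D := by
    rw [hD, mul_assoc]; exact Dvd.intro _ rfl
  choose za hza using fun i => ex_mul (S.a i) D (h1 i)
  choose zb hzb using fun i => ex_mul (S.b i) D (h2 i)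
  obtain ⟨r, hr⟩ := ex_mul S.ρ D h3
  refine ⟨D, za, zb, D ^ 5 * r, by exact_mod_cast hD0, fun i => ?_, fun i => ?_, ?_⟩
  · rw [hza]; push_cast; ring
  · rw [hzb]; push_cast; ring
  · push_cast
    rw [hr]; ring

theorem real_block (d w a b : ℝ) (h : a ^ 2 + a * b + b ^ 2 = 7) :
    ∏ j, (d * w - d * six a b j) = d ^ 6 * ((w ^ 3 - 7 * w) ^ 2 - (a * b * (a + b)) ^ 2) := by
  rw [← six_prod a b w h]
  simp_rw [← mul_sub]
  rw [Finset.prod_mul_distrib]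
  simp

/-- the polynomial `A` -/
noncomputable def AA {f N : ℕ} (d r : ℤ) (za zb : Fin f ⊕ Fin 2 → ℤ)
    (e : Fin N ≃ (Fin f ⊕ Fin 2) × Fin 6) : ℤ[X] :=
  ((X ^ 3 - C (7 * d ^ 2) * X) ^ 2 - C r) *
    ∏ k ∈ Finset.univ.filter (fun k => (e k).1.isLeft = true),
      (X - C (six (za (e k).1) (zb (e k).1) (e k).2))

/-- the roots of `g` -/
noncomputable def rt {f : ℕ} (S : Sel f) : Option (Fin f) → ℝ :=
  fun o => o.elim (S.ρ : ℝ) fun i => ((lam (S.a (Sum.inl i)) (S.b (Sum.inl i)) : ℚ) : ℝ)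

theorem aeval_AA {f N : ℕ} (S : Sel f) (d r : ℤ) (za zb : Fin f ⊕ Fin 2 → ℤ)
    (e : Fin N ≃ (Fin f ⊕ Fin 2) × Fin 6) (hza : ∀ i, (za i : ℚ) = d * S.a i)
    (hzb : ∀ i, (zb i : ℚ) = d * S.b i) (hr : (r : ℚ) = d ^ 6 * S.ρ) (w : ℝ) :
    aeval ((d : ℝ) * w) (AA d r za zb e) =
      (d : ℝ) ^ (6 * (f + 1)) * (PP (rt S)).eval ((w ^ 3 - 7 * w) ^ 2) := by
  have hza' : ∀ i, (za i : ℝ) = d * (S.a i : ℝ) := fun i => by exact_mod_cast congrArg (fun q : ℚ => (q : ℝ)) (hza i)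
  have hzb' : ∀ i, (zb i : ℝ) = d * (S.b i : ℝ) := fun i => by exact_mod_cast congrArg (fun q : ℚ => (q : ℝ)) (hzb i)
  have hr' : (r : ℝ) = d ^ 6 * (S.ρ : ℝ) := by exact_mod_cast congrArg (fun q : ℚ => (q : ℝ)) hr
  have h1 : aeval ((d : ℝ) * w) ((X ^ 3 - C (7 * d ^ 2) * X) ^ 2 - C r : ℤ[X]) =
      (d : ℝ) ^ 6 * ((w ^ 3 - 7 * w) ^ 2 - S.ρ) := by
    simp only [map_sub, map_pow, map_mul, aeval_X, eq_intCast, map_ofNat, map_intCast]
    rw [hr']
    ring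
  have h2 : ∀ p : (Fin f ⊕ Fin 2) × Fin 6, ((six (za p.1) (zb p.1) p.2 : ℤ) : ℝ) =
      d * six (S.a p.1 : ℝ) (S.b p.1 : ℝ) p.2 := by
    intro p
    rw [← six_scale, ← hza', ← hzb']
    exact six_cast (Int.castRingHom ℝ) _ _ _
  have h3 : aeval ((d : ℝ) * w) (∏ k ∈ Finset.univ.filter (fun k => (e k).1.isLeft = true),
      (X - C (six (za (e k).1) (zb (e k).1) (e k).2)) : ℤ[X]) =
      (d : ℝ) ^ (6 * f) * ∏ i : Fin f, ((w ^ 3 - 7 * w) ^ 2 -
        ((lam (S.a (Sum.inl i)) (S.b (Sum.inl i)) : ℚ) : ℝ)) := by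
    rw [map_prod, Finset.prod_filter]
    let G : (Fin f ⊕ Fin 2) × Fin 6 → ℝ := fun p => if p.1.isLeft = true then
          ((d : ℝ) * w - d * six (S.a p.1 : ℝ) (S.b p.1 : ℝ) p.2) else 1
    have h4 : ∀ k : Fin N, (if (e k).1.isLeft = true then
        aeval ((d : ℝ) * w) (X - C (six (za (e k).1) (zb (e k).1) (e k).2) : ℤ[X]) else 1) =
        G (e k) := by
      intro k
      simp only [G, map_sub, aeval_X, eq_intCast, map_intCast]
      rw [h2]
    rw [Finset.prod_congr rfl fun k _ => h4 k, Equiv.prod_comp e G, Fintype.prod_prod_type,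
      Fintype.prod_sum_type]
    simp only [G]
    simp only [Sum.isLeft_inl, Sum.isLeft_inr, if_true, Bool.false_eq_true, if_false,
      Finset.prod_const_one, mul_one]
    have h5 : ∀ i : Fin f, ∏ j, ((d : ℝ) * w - d * six (S.a (Sum.inl i) : ℝ) (S.b (Sum.inl i) : ℝ) j) =
        (d : ℝ) ^ 6 * ((w ^ 3 - 7 * w) ^ 2 - ((lam (S.a (Sum.inl i)) (S.b (Sum.inl i)) : ℚ) : ℝ)) := by
      intro i
      rw [real_block _ _ _ _ (by exact_mod_cast congrArg (fun q : ℚ => (q : ℝ)) (S.hab (Sum.inl i)))]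
      simp only [lam]
      push_cast
      ring
    rw [Finset.prod_congr rfl fun i _ => h5 i, Finset.prod_mul_distrib]
    simp [← pow_mul]
  rw [AA, map_mul, h1, h3, eval_PP, Fintype.prod_option]
  simp only [rt, Option.elim]
  ring

theorem map_AA {f N : ℕ} (S : Sel f) (d r : ℤ) (hd : 0 < d) (za zb : Fin f ⊕ Fin 2 → ℤ)
    (e : Fin N ≃ (Fin f ⊕ Fin 2) × Fin 6) (hza : ∀ i, (za i : ℚ) = d * S.a i)
    (hzb : ∀ i, (zb i : ℚ) = d * S.b i) (hr : (r : ℚ) = d ^ 6 * S.ρ) :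
    (AA d r za zb e).map (Int.castRingHom ℝ) = C ((d : ℝ) ^ (6 * (f + 1))) *
      (PP (rt S)).comp (((C (d : ℝ)⁻¹ * X) ^ 3 - 7 * (C (d : ℝ)⁻¹ * X)) ^ 2) := by
  have hd' : (d : ℝ) ≠ 0 := by exact_mod_cast hd.ne'
  refine Polynomial.funext fun x => ?_
  have h1 := aeval_AA S d r za zb e hza hzb hr ((d : ℝ)⁻¹ * x)
  rw [mul_inv_cancel_left₀ hd'] at h1
  rw [eval_map, ← algebraMap_int_eq, ← aeval_def, h1]
  simp [eval_comp]

theorem der_AA {f N : ℕ} (S : Sel f) (d r : ℤ) (hd : 0 < d) (za zb : Fin f ⊕ Fin 2 → ℤ)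
    (e : Fin N ≃ (Fin f ⊕ Fin 2) × Fin 6) (hza : ∀ i, (za i : ℚ) = d * S.a i)
    (hzb : ∀ i, (zb i : ℚ) = d * S.b i) (hr : (r : ℚ) = d ^ 6 * S.ρ) (w : ℝ) :
    aeval ((d : ℝ) * w) (derivative (AA d r za zb e)) = (d : ℝ) ^ (6 * (f + 1)) *
      ((2 * (w ^ 3 - 7 * w) * (3 * w ^ 2 - 7)) * (d : ℝ)⁻¹ *
        (derivative (PP (rt S))).eval ((w ^ 3 - 7 * w) ^ 2)) := by
  have hd' : (d : ℝ) ≠ 0 := by exact_mod_cast hd.ne'
  have h1 : aeval ((d : ℝ) * w) (derivative (AA d r za zb e)) =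
      (derivative ((AA d r za zb e).map (Int.castRingHom ℝ))).eval ((d : ℝ) * w) := by
    rw [derivative_map, eval_map, ← algebraMap_int_eq, ← aeval_def]
  rw [h1, map_AA S d r hd za zb e hza hzb hr, derivative_C_mul, derivative_comp]
  simp only [eval_mul, eval_C, eval_comp, derivative_pow, derivative_sub, derivative_mul, derivative_C,
    derivative_X, eval_pow, eval_sub, eval_X, eval_add, eval_ofNat, derivative_ofNat, eval_natCast,
    inv_mul_cancel_left₀ hd', eval_zero, eval_one]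
  push_cast
  ring

theorem lam_bd {a b : ℚ} (h : a ^ 2 + a * b + b ^ 2 = 7) (hb : 0 < b) (hb1 : b < 1) :
    0 < lam a b ∧ lam a b < 36 := by
  rw [lam, six_mul h]
  have h1 : 0 < b * (7 - b ^ 2) := mul_pos hb (by nlinarith)
  have h2 : b * (7 - b ^ 2) < 6 := by nlinarith [mul_pos hb (sub_pos.2 hb1), mul_pos (mul_pos hb hb) (sub_pos.2 hb1)]
  exact ⟨by positivity, by nlinarith⟩

theorem rt_inj {f : ℕ} (S : Sel f) : Function.Injective (rt S) := by
  intro x y hxy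
  cases x with
  | none =>
    cases y with
    | none => rfl
    | some j => exact absurd (Rat.cast_injective (α := ℝ) hxy) (S.hρL j)
  | some i =>
    cases y with
    | none => exact absurd (Rat.cast_injective (α := ℝ) hxy.symm) (S.hρL i)
    | some j =>
      have h1 : lam (S.a (Sum.inl i)) (S.b (Sum.inl i)) = lam (S.a (Sum.inl j)) (S.b (Sum.inl j)) :=
        Rat.cast_injective (α := ℝ) hxy
      have h2 := S.hL h1
      rw [Sum.inl_injective h2]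

theorem rt_bd {f : ℕ} (S : Sel f) (o : Option (Fin f)) : 0 < rt S o ∧ rt S o < 36 := by
  cases o with
  | none =>
    have h1 := lam_bd (S.hab (Sum.inr 0)) (S.hb _) (S.hb1 _)
    have h2 := S.hρ0
    have h3 := S.hρ
    have h4 : S.ρ < 36 := by linarith [h1.2]
    exact ⟨Rat.cast_pos.2 h2, (Rat.cast_lt.2 h4).trans_eq (by norm_num)⟩
  | some i =>
    have h1 := lam_bd (S.hab (Sum.inl i)) (S.hb _) (S.hb1 _)
    exact ⟨Rat.cast_pos.2 h1.1, (Rat.cast_lt.2 h1.2).trans_eq (by norm_num)⟩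

/-- the real factorisation -/
theorem fac_AA {f N : ℕ} (S : Sel f) (d r : ℤ) (hd : 0 < d) (za zb : Fin f ⊕ Fin 2 → ℤ)
    (e : Fin N ≃ (Fin f ⊕ Fin 2) × Fin 6) (hza : ∀ i, (za i : ℚ) = d * S.a i)
    (hzb : ∀ i, (zb i : ℚ) = d * S.b i) (hr : (r : ℚ) = d ^ 6 * S.ρ) :
    ∃ a : Fin (6 * (f + 1)) → ℝ, Function.Injective a ∧
      ∀ x : ℝ, aeval x (AA d r za zb e) = ∏ i, (x - a i) := by
  have hd' : (d : ℝ) ≠ 0 := by exact_mod_cast hd.ne'
  choose α β hα hβ hβ1 hαβ hrt using fun o : Option (Fin f) => ex_real (rt S o) (rt_bd S o).1 (rt_bd S o).2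
  let e' : Fin (6 * (f + 1)) ≃ Option (Fin f) × Fin 6 :=
    Fintype.equivOfCardEq (by simp [mul_comm])
  refine ⟨fun k => (d : ℝ) * six (α (e' k).1) (β (e' k).1) (e' k).2, ?_, fun x => ?_⟩
  · intro k k' hk
    have h1 : six (α (e' k).1) (β (e' k).1) (e' k).2 = six (α (e' k').1) (β (e' k').1) (e' k').2 :=
      mul_left_cancel₀ hd' hk
    have h2 := six_val (hαβ (e' k).1) (e' k).2
    have h3 := six_val (hαβ (e' k').1) (e' k').2
    rw [h1, h3, hrt, hrt] at h2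
    have h4 : (e' k).1 = (e' k').1 := (rt_inj S h2).symm
    rw [h4] at h1
    have h5 := six_inj (hαβ (e' k').1) (hα _) (hβ _) (hβ1 _) h1
    exact e'.injective (Prod.ext h4 h5)
  · have h1 := aeval_AA S d r za zb e hza hzb hr ((d : ℝ)⁻¹ * x)
    rw [mul_inv_cancel_left₀ hd'] at h1
    let G : Option (Fin f) × Fin 6 → ℝ := fun p => x - (d : ℝ) * six (α p.1) (β p.1) p.2
    have h2 : ∏ k, (x - (d : ℝ) * six (α (e' k).1) (β (e' k).1) (e' k).2) = ∏ k, G (e' k) := rfl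
    rw [h1, h2, Equiv.prod_comp e' G, Fintype.prod_prod_type, eval_PP]
    have h3 : ∀ o : Option (Fin f), ∏ j, G (o, j) =
        (d : ℝ) ^ 6 * ((((d : ℝ)⁻¹ * x) ^ 3 - 7 * ((d : ℝ)⁻¹ * x)) ^ 2 - rt S o) := by
      intro o
      have h4 := real_block (d : ℝ) ((d : ℝ)⁻¹ * x) (α o) (β o) (hαβ o)
      rw [mul_inv_cancel_left₀ hd', hrt] at h4
      exact h4
    rw [Finset.prod_congr rfl fun o _ => h3 o, Finset.prod_mul_distrib]
    simp [← pow_mul]

/-- `g' ≠ 0` at the two points of level `c` -/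
theorem crit_AA {f : ℕ} (S : Sel f) (j : Fin 2) :
    (derivative (PP (rt S))).eval ((lam (S.a (Sum.inr j)) (S.b (Sum.inr j)) : ℚ) : ℝ) ≠ 0 := by
  set μ : Fin 2 → ℝ := fun j => ((lam (S.a (Sum.inr j)) (S.b (Sum.inr j)) : ℚ) : ℝ) with hμ
  have h01 : μ 0 < μ 1 := Rat.cast_lt.2 S.hμ
  have hρ : ((S.ρ : ℚ) : ℝ) < μ 0 := Rat.cast_lt.2 S.hρ
  have he : (PP (rt S)).eval (μ 0) = (PP (rt S)).eval (μ 1) := by
    rw [eval_PP, eval_PP, Fintype.prod_option, Fintype.prod_option]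
    simp only [rt, Option.elim, hμ]
    exact_mod_cast congrArg (fun q : ℚ => (q : ℝ)) S.hval
  have hgap : ∀ o, rt S o < μ 0 ∨ μ 1 < rt S o := by
    intro o
    cases o with
    | none => exact Or.inl hρ
    | some i =>
      rcases S.hgap i with h | h
      · exact Or.inl (by simp only [rt, Option.elim, hμ]; exact_mod_cast h)
      · exact Or.inr (by simp only [rt, Option.elim, hμ]; exact_mod_cast h)
  obtain ⟨c, hc1, hc2, hc⟩ := rolle (rt S) (μ 0) (μ 1) h01 he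
  have h0 : (derivative (PP (rt S))).eval (μ 0) ≠ 0 := fun h => crit (rt S) (μ 0) c hc1 (fun i => by
    rcases hgap i with h | h
    · exact mul_pos (by linarith) (by linarith)
    · exact mul_pos_of_neg_of_neg (by linarith) (by linarith)) h hc
  have h1 : (derivative (PP (rt S))).eval (μ 1) ≠ 0 := fun h => crit (rt S) c (μ 1) hc2 (fun i => by
    rcases hgap i with h | h
    · exact mul_pos (by linarith) (by linarith)
    · exact mul_pos_of_neg_of_neg (by linarith) (by linarith)) hc h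
  fin_cases j
  · exact h0
  · exact h1

/-- the additional point of the line -/
theorem top_AA {f : ℕ} (S : Sel f) : ∃ T : ℝ, (∀ o, rt S o < T) ∧
    (PP (rt S)).eval T = (PP (rt S)).eval ((lam (S.a (Sum.inr 0)) (S.b (Sum.inr 0)) : ℚ) : ℝ) ∧
    (derivative (PP (rt S))).eval T ≠ 0 ∧
    ∀ j : Fin 2, ((lam (S.a (Sum.inr j)) (S.b (Sum.inr j)) : ℚ) : ℝ) < T := by
  have hpos : 0 < (PP (rt S)).eval ((lam (S.a (Sum.inr 0)) (S.b (Sum.inr 0)) : ℚ) : ℝ) := by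
    rw [eval_PP, Fintype.prod_option]
    simp only [rt, Option.elim]
    exact_mod_cast (show ((0 : ℚ) : ℝ) < (((lam (S.a (Sum.inr 0)) (S.b (Sum.inr 0)) - S.ρ) *
      ∏ i : Fin f, (lam (S.a (Sum.inr 0)) (S.b (Sum.inr 0)) - lam (S.a (Sum.inl i)) (S.b (Sum.inl i))) : ℚ) : ℝ) by
        exact_mod_cast S.hpos)
  obtain ⟨o, ho⟩ := Finite.exists_max (rt S)
  have hdeg : 0 < (PP (rt S)).degree := by
    rw [PP, degree_prod]
    simp
    exact_mod_cast Nat.succ_pos f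
  have hlead : 0 ≤ (PP (rt S)).leadingCoeff := by
    have : (PP (rt S)).Monic := monic_prod_of_monic _ _ fun i _ => monic_X_sub_C _
    rw [this.leadingCoeff]; exact zero_le_one
  have ht := (PP (rt S)).tendsto_atTop_of_leadingCoeff_nonneg hdeg hlead
  obtain ⟨W, hW1, hW2⟩ := ((ht.eventually_ge_atTop ((PP (rt S)).eval
    ((lam (S.a (Sum.inr 0)) (S.b (Sum.inr 0)) : ℚ) : ℝ))).and
    (Filter.eventually_ge_atTop (rt S o))).exists
  have h0 : (PP (rt S)).eval (rt S o) = 0 := by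
    rw [eval_PP]
    exact Finset.prod_eq_zero (Finset.mem_univ o) (sub_self _)
  obtain ⟨T, ⟨hT1, hT2⟩, hT⟩ := intermediate_value_Icc hW2 (PP (rt S)).continuous.continuousOn
    (show (PP (rt S)).eval ((lam (S.a (Sum.inr 0)) (S.b (Sum.inr 0)) : ℚ) : ℝ) ∈ Set.Icc _ _ from
      ⟨by rw [h0]; exact hpos.le, hW1⟩)
  simp only at hT
  have hoT : rt S o < T := lt_of_le_of_ne hT1 fun h => by
    rw [← h, h0] at hT
    linarith
  have hall : ∀ o', rt S o' < T := fun o' => (ho o').trans_lt hoT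
  obtain ⟨i, hi⟩ := S.htop
  have hi' : ((lam (S.a (Sum.inr 1)) (S.b (Sum.inr 1)) : ℚ) : ℝ) < T :=
    lt_trans (Rat.cast_lt.2 hi) (hall (some i))
  have h01 : ((lam (S.a (Sum.inr 0)) (S.b (Sum.inr 0)) : ℚ) : ℝ) <
      ((lam (S.a (Sum.inr 1)) (S.b (Sum.inr 1)) : ℚ) : ℝ) := by exact_mod_cast S.hμ
  refine ⟨T, hall, hT, ?_, fun j => ?_⟩
  · rw [eval_der _ _ fun i => (hall i).ne']
    have h1 : 0 < ∑ i, (T - rt S i)⁻¹ :=
      Finset.sum_pos (fun i _ => inv_pos.2 (sub_pos.2 (hall i))) Finset.univ_nonempty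
    rw [hT]
    positivity
  · fin_cases j
    · exact h01.trans hi'
    · exact hi'

theorem ex_w (T : ℝ) (hT : 0 < T) : ∃ w : ℝ, (w ^ 3 - 7 * w) ^ 2 = T ∧
    2 * (w ^ 3 - 7 * w) * (3 * w ^ 2 - 7) ≠ 0 := by
  have hs : 0 < Real.sqrt T := Real.sqrt_pos.2 hT
  have hcont : Continuous fun w : ℝ => w ^ 3 - 7 * w := by fun_prop
  obtain ⟨w, ⟨h1, h2⟩, h3⟩ := intermediate_value_Icc (show (13 / 5 : ℝ) ≤ 3 + Real.sqrt T by linarith)
    hcont.continuousOn (show Real.sqrt T ∈ Set.Icc ((13 / 5 : ℝ) ^ 3 - 7 * (13 / 5))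
      ((3 + Real.sqrt T) ^ 3 - 7 * (3 + Real.sqrt T)) from
      ⟨by norm_num; linarith, by nlinarith [mul_pos hs hs, mul_pos (mul_pos hs hs) hs]⟩)
  simp only at h3
  refine ⟨w, by rw [h3, Real.sq_sqrt hT.le], ?_⟩
  rw [h3]
  have h4 : 0 < 3 * w ^ 2 - 7 := by nlinarith
  positivity

end Pool.Agent.Run7.h373.CK
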