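import Pool.Agent.Run7.h373.CK.Dat

/-!
# The data: assembly
-/

set_option autoImplicit false

namespace Pool.Agent.Run7.h373.CK

open Polynomial Pool.Agent.R713.AS

theorem dat {f : ℕ} (S : Sel f) :
    ∃ (D : Dt (6 * (f + 1)) (6 * (f + 1) + 5)) (a : Fin (6 * (f + 1)) → ℝ),
    Function.Injective a ∧ ∀ x : ℝ, aeval x D.A = ∏ i, (x - a i) := by
  obtain ⟨d, za, zb, r, hd, hza, hzb, hr⟩ := ex_int S
  have hd' : (d : ℝ) ≠ 0 := by exact_mod_cast hd.ne'
  have hd0 : (0 : ℝ) < d := by exact_mod_cast hd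
  have hdQ : (d : ℚ) ≠ 0 := by exact_mod_cast hd.ne'
  let e : Fin (6 * (f + 1) + 5 + 1) ≃ (Fin f ⊕ Fin 2) × Fin 6 :=
    Fintype.equivOfCardEq (by simp; ring)
  obtain ⟨a, ha, hfa⟩ := fac_AA S d r hd za zb e hza hzb hr
  have hval := aeval_AA S d r za zb e hza hzb hr
  have hderv := der_AA S d r hd za zb e hza hzb hr
  have hAdef : AA d r za zb e = ((X ^ 3 - C (7 * d ^ 2) * X) ^ 2 - C r) *
    ∏ k ∈ Finset.univ.filter (fun k => (e k).1.isLeft = true),
      (X - C (six (za (e k).1) (zb (e k).1) (e k).2)) := rfl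
  generalize AA d r za zb e = A at hfa hval hderv hAdef
  have hAm : A.map (Int.castRingHom ℝ) = ∏ i, (X - C (a i)) := by
    refine Polynomial.funext fun x => ?_
    rw [eval_map, ← algebraMap_int_eq, ← aeval_def, hfa, eval_prod]
    simp
  have hinj : Function.Injective (Int.castRingHom ℝ) := RingHom.injective_int _
  have hmon : A.Monic := by
    refine hinj.monic_map_iff.2 ?_
    rw [hAm]; exact monic_prod_of_monic _ _ fun i _ => monic_X_sub_C _
  have hdeg : A.natDegree = 6 * (f + 1) := by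
    rw [← natDegree_map_eq_of_injective hinj A, hAm,
      natDegree_prod_of_monic _ _ fun i _ => monic_X_sub_C _]
    simp
  have hsep : ∀ z : ℂ, aeval z A = 0 → aeval z (derivative A) ≠ 0 := by
    intro z hz
    have h1 : (A.map (Int.castRingHom ℝ)).Separable := by
      rw [hAm]; exact separable_prod_X_sub_C_iff.2 ha
    have h2 : aeval z (A.map (Int.castRingHom ℝ)) = 0 := by
      rw [← algebraMap_int_eq, aeval_map_algebraMap]; exact hz
    have h3 := h1.aeval_derivative_ne_zero h2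
    rw [derivative_map, ← algebraMap_int_eq, aeval_map_algebraMap] at h3
    exact h3
  let zz : (Fin f ⊕ Fin 2) × Fin 6 → ℤ := fun p => six (za p.1) (zb p.1) p.2
  have hzQ : ∀ p, (zz p : ℚ) = d * six (S.a p.1) (S.b p.1) p.2 := by
    intro p
    rw [← six_scale, ← hza, ← hzb]
    exact six_cast (Int.castRingHom ℚ) _ _ _
  have hzR : ∀ p, (zz p : ℝ) = d * six (S.a p.1 : ℝ) (S.b p.1 : ℝ) p.2 := by
    intro p
    have h1 := congrArg (fun q : ℚ => (q : ℝ)) (hzQ p)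
    have h2 : ((six (S.a p.1) (S.b p.1) p.2 : ℚ) : ℝ) = six (S.a p.1 : ℝ) (S.b p.1 : ℝ) p.2 :=
      six_cast (Rat.castHom ℝ) _ _ _
    simp only [Rat.cast_mul, Rat.cast_intCast, h2] at h1
    exact h1
  have habR : ∀ i, (S.a i : ℝ) ^ 2 + (S.a i : ℝ) * (S.b i : ℝ) + (S.b i : ℝ) ^ 2 = 7 := fun i => by
    exact_mod_cast congrArg (fun q : ℚ => (q : ℝ)) (S.hab i)
  have hlR : ∀ i, ((S.a i : ℝ) * (S.b i : ℝ) * ((S.a i : ℝ) + (S.b i : ℝ))) ^ 2 =
      ((lam (S.a i) (S.b i) : ℚ) : ℝ) := fun i => by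
    simp only [lam]; push_cast; ring
  have hw : ∀ p : (Fin f ⊕ Fin 2) × Fin 6, ((six (S.a p.1 : ℝ) (S.b p.1 : ℝ) p.2) ^ 3 -
      7 * six (S.a p.1 : ℝ) (S.b p.1 : ℝ) p.2) ^ 2 = ((lam (S.a p.1) (S.b p.1) : ℚ) : ℝ) := fun p => by
    rw [six_val (habR p.1), hlR]
  have hcast : ∀ z : ℤ, aeval (z : ℝ) A = ((A.eval z : ℤ) : ℝ) := fun z => by
    rw [show (z : ℝ) = algebraMap ℤ ℝ z by simp, aeval_algebraMap_apply]; simp
  have hcast' : ∀ z : ℤ, aeval (z : ℝ) (derivative A) = (((derivative A).eval z : ℤ) : ℝ) := fun z => by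
    rw [show (z : ℝ) = algebraMap ℤ ℝ z by simp, aeval_algebraMap_apply]; simp
  have hev : ∀ p, ((A.eval (zz p) : ℤ) : ℝ) =
      (d : ℝ) ^ (6 * (f + 1)) * (PP (rt S)).eval ((lam (S.a p.1) (S.b p.1) : ℚ) : ℝ) := by
    intro p
    rw [← hcast, hzR, hval, hw]
  have hev0 : ∀ (i : Fin f) (j : Fin 6), A.eval (zz (Sum.inl i, j)) = 0 := by
    intro i j
    have h1 := hev (Sum.inl i, j)
    have h2 : (PP (rt S)).eval ((lam (S.a (Sum.inl i)) (S.b (Sum.inl i)) : ℚ) : ℝ) = 0 := by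
      rw [eval_PP]
      exact Finset.prod_eq_zero (Finset.mem_univ (some i)) (sub_self _)
    simp only [h2, mul_zero] at h1
    exact_mod_cast h1
  have hPeq : (PP (rt S)).eval ((lam (S.a (Sum.inr 0)) (S.b (Sum.inr 0)) : ℚ) : ℝ) =
      (PP (rt S)).eval ((lam (S.a (Sum.inr 1)) (S.b (Sum.inr 1)) : ℚ) : ℝ) := by
    rw [eval_PP, eval_PP, Fintype.prod_option, Fintype.prod_option]
    simp only [rt, Option.elim]
    exact_mod_cast congrArg (fun q : ℚ => (q : ℝ)) S.hval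
  have hPpos : 0 < (PP (rt S)).eval ((lam (S.a (Sum.inr 0)) (S.b (Sum.inr 0)) : ℚ) : ℝ) := by
    rw [eval_PP, Fintype.prod_option]
    simp only [rt, Option.elim]
    exact_mod_cast (show ((0 : ℚ) : ℝ) < (((lam (S.a (Sum.inr 0)) (S.b (Sum.inr 0)) - S.ρ) *
      ∏ i : Fin f, (lam (S.a (Sum.inr 0)) (S.b (Sum.inr 0)) - lam (S.a (Sum.inl i)) (S.b (Sum.inl i))) : ℚ) : ℝ) by
        exact_mod_cast S.hpos)
  have hPj : ∀ j : Fin 2, (PP (rt S)).eval ((lam (S.a (Sum.inr j)) (S.b (Sum.inr j)) : ℚ) : ℝ) =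
      (PP (rt S)).eval ((lam (S.a (Sum.inr 0)) (S.b (Sum.inr 0)) : ℚ) : ℝ) := by
    intro j
    fin_cases j
    · rfl
    · exact hPeq.symm
  obtain ⟨c, hc⟩ : ∃ c : ℤ, c = A.eval (zz (Sum.inr 0, 0)) := ⟨_, rfl⟩
  have hcR : (c : ℝ) = (d : ℝ) ^ (6 * (f + 1)) *
      (PP (rt S)).eval ((lam (S.a (Sum.inr 0)) (S.b (Sum.inr 0)) : ℚ) : ℝ) := by
    rw [hc, hev]
  have hc0 : 0 < c := by
    have : (0 : ℝ) < c := by rw [hcR]; positivity
    exact_mod_cast this
  have hev1 : ∀ (j : Fin 2) (i : Fin 6), A.eval (zz (Sum.inr j, i)) = c := by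
    intro j i
    have h1 := hev (Sum.inr j, i)
    simp only at h1
    rw [hPj j, ← hcR] at h1
    exact_mod_cast h1
  have hpt : Function.Injective fun k => zz (e k) := by
    intro k k' hk
    have h0 : ((zz (e k) : ℤ) : ℚ) = zz (e k') := congrArg _ hk
    rw [hzQ, hzQ] at h0
    have h1 := mul_left_cancel₀ hdQ h0
    have h2 := six_val (S.hab (e k).1) (e k).2
    have h3 := six_val (S.hab (e k').1) (e k').2
    rw [h1, h3] at h2
    have h4 : (e k).1 = (e k').1 := (S.hL h2).symm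
    rw [h4] at h1
    exact e.injective (Prod.ext h4 (six_inj (S.hab _) (S.ha _) (S.hb _) (S.hb1 _) h1))
  have hiff : ∀ k, A.eval (zz (e k)) = 0 ↔ (e k).1.isLeft = true := by
    intro k
    rcases h : e k with ⟨i | j, l⟩
    · simp [hev0]
    · simp only [hev1, Sum.isLeft_inr, Bool.false_eq_true, iff_false]
      exact hc0.ne'
  refine ⟨⟨A, (X ^ 3 - C (7 * d ^ 2) * X) ^ 2 - C r, c, fun k => zz (e k), hmon, hdeg, ?_, ?_, hc0,
    hpt, ?_, ?_, ?_, ?_, hsep, ?_⟩, a, ha, hfa⟩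
  · monicity!
  · have : ((X ^ 3 - C (7 * d ^ 2) * X) ^ 2 - C r : ℤ[X]).natDegree = 6 := by compute_degree!
    omega
  · intro k
    rcases h : e k with ⟨i | j, l⟩
    · exact Or.inl (hev0 i l)
    · exact Or.inr (hev1 j l)
  · refine ⟨e.symm (Sum.inr 0, 0), ?_⟩
    simp only [Equiv.apply_symm_apply]
    exact hc.symm
  · have : Finset.univ.filter (fun k => A.eval (zz (e k)) = 0) =
        Finset.univ.filter (fun k => (e k).1.isLeft = true) :=
      Finset.filter_congr fun k _ => hiff k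
    rw [this]
    exact hAdef
  · intro k h0
    rcases h : e k with ⟨i | j, l⟩
    · have h1 := hsep ((zz (Sum.inl i, l) : ℤ) : ℂ) (by
        rw [show ((zz (Sum.inl i, l) : ℤ) : ℂ) = algebraMap ℤ ℂ (zz (Sum.inl i, l)) by simp,
          aeval_algebraMap_apply]
        simp [hev0])
      apply h1
      rw [show ((zz (Sum.inl i, l) : ℤ) : ℂ) = algebraMap ℤ ℂ (zz (Sum.inl i, l)) by simp,
        aeval_algebraMap_apply]
      rw [h] at h0
      simp [h0]
    · rw [h] at h0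
      have h1 := hcast' (zz (Sum.inr j, l))
      rw [h0, hzR, hderv, hw] at h1
      have h2 := crit_AA S j
      have h3 := six_der (habR (Sum.inr j)) (by exact_mod_cast S.ha (Sum.inr j))
        (by exact_mod_cast S.hb (Sum.inr j)) (by exact_mod_cast S.hb1 (Sum.inr j)) l
      simp only [Int.cast_zero] at h1
      exact (mul_ne_zero (pow_ne_zero _ hd') (mul_ne_zero (mul_ne_zero h3 (inv_ne_zero hd')) h2)) h1
  · obtain ⟨T, hT1, hT2, hT3, hT4⟩ := top_AA S
    have hT0 : 0 < T := lt_trans (rt_bd S none).1 (hT1 none)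
    obtain ⟨w, hw1, hw2⟩ := ex_w T hT0
    have hC : ∀ P : ℤ[X], aeval (((d : ℝ) * w : ℝ) : ℂ) P = ((aeval ((d : ℝ) * w) P : ℝ) : ℂ) := by
      intro P
      rw [show (((d : ℝ) * w : ℝ) : ℂ) = algebraMap ℝ ℂ ((d : ℝ) * w) from rfl, aeval_algebraMap_apply]
      rfl
    refine ⟨(((d : ℝ) * w : ℝ) : ℂ), ?_, ?_, ?_⟩
    · rw [hC, hval, hw1, hT2, ← hcR]
      simp
    · rw [hC, hderv, hw1]
      simp only [ne_eq, Complex.ofReal_eq_zero]
      exact mul_ne_zero (pow_ne_zero _ hd') (mul_ne_zero (mul_ne_zero hw2 (inv_ne_zero hd')) hT3)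
    · intro k h0
      have h1 : (d : ℝ) * w = (zz (e k) : ℝ) := by exact_mod_cast h0
      rw [hzR] at h1
      have h2 := mul_left_cancel₀ hd' h1
      have h3 := hw (e k)
      rw [← h2, hw1] at h3
      rcases h : e k with ⟨i | j, l⟩
      · rw [h] at h3
        exact absurd h3 (hT1 (some i)).ne'
      · rw [h] at h3
        exact absurd h3 (hT4 j).ne'

theorem t_DATA (hS : S_SEL) : S_DATA := by
  intro e he
  obtain ⟨f, rfl⟩ : ∃ f, e = f + 1 := ⟨e - 1, by omega⟩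
  obtain ⟨S⟩ := hS f (by omega)
  exact dat S

end Pool.Agent.Run7.h373.CK
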