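import Pool.Agent.W289.CG.Stm

/-!
# Project CK: class groups with large `m`-rank, polynomials with nonlinear factors on both levels

Generalisation of `Pool/Agent/W289/CG` from the polynomials `A = ∏ (X - a i)` with `A (b j) = c` to the monic
polynomials `A = Q ∏ (X - a i)` with a cofactor `Q` (of any degree `≥ 1`).  Almost every piece is a copy of an existing
file of the starting tree in which `pA D.a` is replaced by `D.A`; the file is named in the docstring.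
The aim: for `6 ∣ n`, `n ≥ 18`, all `m ≥ 2`, fields of degree `n` with class group containing `(ℤ/m)^(r₂+7)`.
-/

set_option autoImplicit false

namespace Pool.Agent.Run7.h373.CK

open Polynomial NumberField nonZeroDivisors Pool.Agent.W289.CG

/-- the data: `A` monic of degree `n` with values `0` or `c > 0` at the integers `pt i`,
`A = Q ∏ (X - pt i)` (product over the zeros among the `pt i`), `A` has only simple zeros, the `pt i` are simple points of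
both levels and there is a further simple point `β` with `A β = c` -/
structure Dt (n M : ℕ) where
  A : ℤ[X]
  Q : ℤ[X]
  c : ℤ
  pt : Fin (M + 1) → ℤ
  hA : A.Monic
  hn : A.natDegree = n
  hQ : Q.Monic
  hQ1 : 0 < Q.natDegree
  hc : 0 < c
  hpt : Function.Injective pt
  hval : ∀ i, A.eval (pt i) = 0 ∨ A.eval (pt i) = c
  h1 : ∃ i, A.eval (pt i) = c
  hfac : A = Q * ∏ i ∈ Finset.univ.filter (fun i => A.eval (pt i) = 0), (X - C (pt i))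
  hder : ∀ i, (derivative A).eval (pt i) ≠ 0
  hsep : ∀ z : ℂ, aeval z A = 0 → aeval z (derivative A) ≠ 0
  hβ : ∃ β : ℂ, aeval β A = (c : ℂ) ∧ aeval β (derivative A) ≠ 0 ∧ ∀ i, β ≠ (pt i : ℂ)

/-- the product of the numbers `A' (pt i)` -/
noncomputable def Dt.bad {n M : ℕ} (D : Dt n M) : ℤ := ∏ i, (derivative D.A).eval (D.pt i)

/-- `L c = t ^ m - s ^ m`, `L A(θ) + s ^ m = 0`, `K = ℚ(θ)` -/
structure Fl {n M : ℕ} (D : Dt n M) (m : ℕ) (s t L : ℤ) (K : Type) [Field K] [NumberField K]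
    (θ : K) : Prop where
  hL : L * D.c = t ^ m - s ^ m
  hθ : (L : K) * aeval θ D.A + (s : K) ^ m = 0
  gen : IntermediateField.adjoin ℚ {θ} = ⊤

/-- a prime `q` at which `L A + s ^ m` has the simple root `x` -/
structure Ts {n M : ℕ} (D : Dt n M) (m q : ℕ) (s t x : ℤ) : Prop where
  prime : q.Prime
  hc : ¬ (q : ℤ) ∣ D.c
  hF : (q : ℤ) ∣ t ^ m * D.A.eval x - s ^ m * (D.A.eval x - D.c)
  hL : ¬ (q : ℤ) ∣ t ^ m - s ^ m
  hd : ¬ (q : ℤ) ∣ (derivative D.A).eval x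

/-- the test `(ℓ, h, h₀)`: at the root `x` mod `q` the product of the `(x - pt i) ^ h i` and of `Q(x) ^ h₀` is not
`±` an `ℓ`-th power -/
def Pt {n M : ℕ} (D : Dt n M) (m : ℕ) (τ : ℕ × (Fin (M + 1) → ℕ) × ℕ) (q : ℕ) (s t : ℤ) : Prop :=
  ∃ x : ℤ, Ts D m q s t x ∧ (∀ i, ¬ (q : ℤ) ∣ x - D.pt i) ∧ ¬ (q : ℤ) ∣ D.Q.eval x ∧
    ∀ y : ZMod q,
      (∏ i, ((x : ZMod q) - (D.pt i : ZMod q)) ^ τ.2.1 i) * ((D.Q.eval x : ℤ) : ZMod q) ^ τ.2.2 ≠ y ^ τ.1 ∧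
      (∏ i, ((x : ZMod q) - (D.pt i : ZMod q)) ^ τ.2.1 i) * ((D.Q.eval x : ℤ) : ZMod q) ^ τ.2.2 ≠ - y ^ τ.1

/-- the congruence conditions on `s` and `t` (as `Good` of `W289/CG/Core2.lean`) -/
structure Gd {n M : ℕ} (D : Dt n M) (m N : ℕ) (q₀ q₁ : ℕ) (s t : ℤ) : Prop where
  hq₀ : q₀.Prime
  hN : N < q₀
  hc : ¬ (q₀ : ℤ) ∣ D.c
  hm : ¬ q₀ ∣ m
  hs₀ : (q₀ : ℤ) ∣ s - 1
  ht₀ : (q₀ : ℤ) ^ 2 ∣ t - s - q₀
  hq₁ : q₁.Prime
  hqm : 4 * m ∣ q₁ + 1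
  hqm' : m < q₁
  hq4 : 4 < q₁
  hc₁ : ¬ (q₁ : ℤ) ∣ D.c
  hbad : ¬ (q₁ : ℤ) ∣ D.bad
  hs₁ : (q₁ : ℤ) ∣ s - 1
  ht₁ : (q₁ : ℤ) ∣ t
  hsc : D.c ∣ s - 1
  htc : D.c ∣ t - 1
  hsb : D.bad ∣ s - 1
  htb : D.bad ∣ t - 1
  tests : ∀ ℓ : ℕ, ℓ.Prime → ℓ ∣ m → ∀ (h : Fin (M + 1) → ℕ) (h₀ : ℕ), (∀ i, h i < ℓ) → h₀ < ℓ →
    ((∃ i, ¬ ℓ ∣ h i) ∨ ¬ ℓ ∣ h₀) → ∃ q : ℕ, q.Prime ∧ Pt D m (ℓ, h, h₀) q s t

/-! ## The pieces -/

/-- IRR: irreducibility.  Copy of `Pool/Agent/W505/CG/Irr.lean` (theorem `irr`) with `pA a` replaced by a monic `A`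
(only `pA_monic` and `pA_natDegree` are used there). -/
def S_IRR : Prop :=
  ∀ (A : ℤ[X]) (L S : ℤ) (q : ℕ), A.Monic → 1 ≤ A.natDegree → q.Prime → (q : ℤ) ∣ L →
    ¬ (q : ℤ) ^ 2 ∣ L → ¬ (q : ℤ) ∣ S → IsCoprime L S →
    Irreducible ((C L * A + C S).map (Int.castRingHom ℚ))

/-- DISC: the prime `q` divides the discriminant.  Copy of `Pool/Agent/W505/CG/Disc.lean` (theorem `disc`) with `pA a`
replaced by a monic `A`. -/
def S_DISC : Prop :=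
  ∀ (K : Type) [Field K] [NumberField K] (A : ℤ[X]) (L S : ℤ) (q : ℕ) (θ : K), A.Monic →
    2 ≤ A.natDegree → Module.finrank ℚ K = A.natDegree → q.Prime → (q : ℤ) ∣ L → ¬ (q : ℤ) ^ 2 ∣ L →
    ¬ (q : ℤ) ∣ S → (L : K) * aeval θ A + (S : K) = 0 →
    IntermediateField.adjoin ℚ {θ} = ⊤ → (q : ℤ) ∣ discr K

/-- EMB: embeddings in `ℚ_q`.  Copy of `Pool/Agent/W290/CG/Emb.lean` with `pA D.a` replaced by `D.A`. -/
def S_EMB : Prop :=
  ∀ (n M : ℕ) (D : Dt n M) (m : ℕ) (s t L : ℤ) (K : Type) [Field K] [NumberField K] (θ : K)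
    (q : ℕ) [Fact q.Prime] (x : ℤ), Module.finrank ℚ K = n → 1 ≤ n → L ≠ 0 →
    Fl D m s t L K θ → Ts D m q s t x →
    ∃ (φ : K →+* ℚ_[q]) (z : ℤ_[q]), φ θ = (z : ℚ_[q]) ∧ PadicInt.toZMod z = (x : ZMod q)

/-- RED: reduction of `±` powers modulo `q`.  Copy of `red` in `Pool/Agent/W349/CG/Mu.lean` with the linear factors
`θ - c i` replaced by `P i (θ)` for integer polynomials `P i` which do not vanish at `x`. -/
def S_RED : Prop :=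
  ∀ (K : Type) [Field K] (q : ℕ) [Fact q.Prime] (ℓ N : ℕ) (θ : K) (P : Fin N → ℤ[X])
    (φ : K →+* ℚ_[q]) (z : ℤ_[q]) (x : ZMod q), ℓ.Prime → φ θ = (z : ℚ_[q]) →
    PadicInt.toZMod z = x → (∀ i, aeval x (P i) ≠ 0) →
    ∀ (e : Fin N → ℤ) (e' : Fin N → ℕ) (y : K), (∀ i, (ℓ : ℤ) ∣ e i - (e' i : ℤ)) →
    (∏ i, (aeval θ (P i)) ^ e i = y ^ ℓ ∨ ∏ i, (aeval θ (P i)) ^ e i = - y ^ ℓ) →
    ∃ y' : ZMod q, ∏ i, (aeval x (P i)) ^ e' i = y' ^ ℓ ∨ ∏ i, (aeval x (P i)) ^ e' i = - y' ^ ℓ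

/-- LOC: valuations.  As `Pool/Agent/W405/CG/Loc.lean`.  If `v θ > 1` then `v (θ - p) = v θ` and `v (Q θ) = (v θ) ^ deg Q`.
Otherwise `v L = 1` (`s`, `t` coprime); for a point `p` with `A p = 0` write `A = (X - p) G`, `G p = A' p`, so `θ - p` is a unit
or `v (G θ) = 1` and `v (θ - p) = v (A θ) = v s ^ m` (lemma `key` there); the same for `A - c` and `t`.  For `Q`: if
`v (Q θ) < 1` then `v s < 1`, and all `θ - pt i` with `A (pt i) = 0` are units: if `v (θ - p) < 1` then `v (G θ) = 1` and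
`Q ∣ G` (by `hfac`, as `(X - p) G = Q ∏ (X - pt i)`); so `v (Q θ) = v (A θ) = v s ^ m`. -/
def S_LOC : Prop :=
  ∀ (n M : ℕ) (D : Dt n M) (m : ℕ) (s t L : ℤ) (K : Type) [Field K] [NumberField K] (θ : K),
    1 ≤ m → L ≠ 0 → s ≠ 0 → t ≠ 0 → Fl D m s t L K θ → IsCoprime s t →
    IsCoprime s D.bad → IsCoprime t D.bad →
    ∀ v : IsDedekindDomain.HeightOneSpectrum (𝓞 K),
      (∀ i j, ∃ z : ℤ, v.valuation K ((θ - (D.pt i : K)) / (θ - (D.pt j : K))) = WithZero.exp ((m : ℤ) * z)) ∧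
      ∀ j, ∃ z : ℤ, v.valuation K (aeval θ D.Q / (θ - (D.pt j : K)) ^ D.Q.natDegree) = WithZero.exp ((m : ℤ) * z)

/-- SPL: primes `q ≡ 1` mod `M₀` at which `A` splits into different linear factors and which have a further simple point `β`.
As `root` in `Pool/Agent/W505/CG/Root.lean` (`exists_hom` there): `L` = the field generated by the roots of `A` in `ℂ`, by `β`
and by a primitive `M₀`-th root of unity; `q` larger than the norm of the product of the `A' (roots)`, `A' β`, `β - pt i`. -/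
def S_SPL : Prop :=
  ∀ (n M : ℕ) (D : Dt n M) (M₀ Q₀ : ℕ), 1 ≤ M₀ →
    ∃ (q : ℕ) (_ : Fact q.Prime), Q₀ < q ∧ M₀ ∣ q - 1 ∧ ∃ (a : Fin n → ZMod q) (β : ZMod q),
      Function.Injective a ∧ D.A.map (Int.castRingHom (ZMod q)) = pA a ∧
      (pA a).eval β = (D.c : ZMod q) ∧ (derivative (pA a)).eval β ≠ 0 ∧ ∀ i, β ≠ (D.pt i : ZMod q)

/-- TST: existence of the test primes, as `exists_test` in `Pool/Agent/W289/CG/Test.lean`.  Take `q` from SPL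
(`M₀ = 2 m`), not dividing `c`, `bad` and the differences of the `pt i`; `b` = the reductions of the `pt i` with `A (pt i) = c`
(`k` of them), and apply `TaskWeil` with the exponents `h i` at the roots `pt i` of `A` mod `q`, `h₀` at the other roots
(the roots of `Q` mod `q`) and `h i` at the `b`'s. -/
def S_TST : Prop :=
  ∀ (n M : ℕ) (D : Dt n M) (m : ℕ), 1 ≤ n → 2 ≤ m → ∀ τ : ℕ × (Fin (M + 1) → ℕ) × ℕ, τ.1.Prime →
    τ.1 ∣ m → ((∃ i, ¬ τ.1 ∣ τ.2.1 i) ∨ ¬ τ.1 ∣ τ.2.2) → ∀ Q₀ : ℕ,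
    ∃ q : ℕ, q.Prime ∧ Q₀ < q ∧ ∃ s t : ℤ, ¬ (q : ℤ) ∣ s ∧ Pt D m τ q s t

/-- GOOD: the congruence conditions can be satisfied.  Copy of `exists_good` in `Pool/Agent/W289/CG/Core2.lean`
(with `Tst.congr`, `PT.congr` of `Test.lean` and `crt_tests` of `Crt.lean`). -/
def S_GOOD : Prop :=
  ∀ (n M : ℕ) (D : Dt n M) (m N : ℕ), 1 ≤ n → 2 ≤ m →
    ∃ (q₀ q₁ : ℕ) (Z s₀ t₀ : ℤ), 0 < Z ∧ IsCoprime s₀ Z ∧
      ∀ s t : ℤ, Z ∣ s - s₀ → Z ∣ t - t₀ → Gd D m N q₀ q₁ s t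

/-- IND: independence.  As `indep_of_tests` in `Pool/Agent/W289/CG/Ind.lean`; the elements are `g 0 = Q(θ) / (θ - p₀) ^ deg Q` and
`g (i + 1) = (θ - p_{i+1}) / (θ - p₀)`. -/
def S_IND : Prop :=
  ∀ (n M : ℕ) (D : Dt n M) (m : ℕ) (s t L : ℤ) (K : Type) [Field K] [NumberField K] (θ : K),
    Module.finrank ℚ K = n → 1 ≤ n → L ≠ 0 → Fl D m s t L K θ →
    (∀ i, θ - (D.pt i : K) ≠ 0) → aeval θ D.Q ≠ 0 → ∀ g : Fin (M + 1) → Kˣ,
    (g 0 : K) = aeval θ D.Q / (θ - (D.pt 0 : K)) ^ D.Q.natDegree →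
    (∀ i : Fin M, (g i.succ : K) = (θ - (D.pt i.succ : K)) / (θ - (D.pt 0 : K))) →
    ∀ ℓ : ℕ, ℓ.Prime →
    (∀ (h : Fin (M + 1) → ℕ) (h₀ : ℕ), (∀ i, h i < ℓ) → h₀ < ℓ → ((∃ i, ¬ ℓ ∣ h i) ∨ ¬ ℓ ∣ h₀) →
      ∃ q : ℕ, q.Prime ∧ Pt D m (ℓ, h, h₀) q s t) → Indep g ℓ

/-- REA0: no real roots for large `v`, even degree. -/
def S_REA0 : Prop :=
  ∀ A : ℤ[X], A.Monic → 0 < A.natDegree → Even A.natDegree →
    ∃ B : ℝ, ∀ v : ℝ, B < v → {x : ℝ | aeval x A = - v}.ncard = 0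

/-- REA1: only real roots for small `v`: `n` simple real zeros, the sign changes at each of them; at most `n` solutions. -/
def S_REA1 : Prop :=
  ∀ (n : ℕ) (a : Fin n → ℝ), 1 ≤ n → Function.Injective a →
    ∃ v₀ : ℝ, 0 < v₀ ∧ ∀ v : ℝ, 0 < v → v < v₀ → {x : ℝ | ∏ i, (x - a i) = - v}.ncard = n

/-- CORE: the fields. (leader) -/
def S_CORE : Prop :=
  ∀ (n M : ℕ) (D : Dt n M) (m N : ℕ), 2 ≤ n → 2 ≤ m → ∀ x y : ℝ, 1 ≤ x → x < y →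
    ∃ (s t : ℤ) (K : Type) (_ : Field K) (_ : NumberField K), 0 < s ∧ x * s < t ∧
      (t : ℝ) < y * s ∧ Module.finrank ℚ K = n ∧ (N : ℤ) < |discr K| ∧
      InfinitePlace.nrRealPlaces K =
        {X : ℝ | aeval X D.A = - ((s : ℝ) ^ m * D.c / ((t : ℝ) ^ m - (s : ℝ) ^ m))}.ncard ∧
      ∀ R, R + Units.rank K ≤ M + 1 →
        ∃ f : Multiplicative (Fin R → ZMod m) →* ClassGroup (𝓞 K), Function.Injective f

/-- DATA: the data for `n = 6 e`, `e ≥ 3` (leader). -/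
def S_DATA : Prop :=
  ∀ e : ℕ, 3 ≤ e → ∃ (D : Dt (6 * e) (6 * e + 5)) (a : Fin (6 * e) → ℝ), Function.Injective a ∧
    ∀ x : ℝ, aeval x D.A = ∏ i, (x - a i)

end Pool.Agent.Run7.h373.CK
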